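import Pool.Agent.Lib_MP_f2f003_ins.Proc

/-!
# MP_f2f003_pr: hitting times of a list of edges

Own library (helper59).
-/

set_option autoImplicit false

namespace Pool.Agent.HitW

open MeasureTheory
open scoped ENNReal NNReal

/-- all pairs of distinct vertices -/
def allPairs (n : ℕ) : Finset (Sym2 (Fin n)) := Finset.univ.filter fun e => ¬ e.IsDiag

/-- the graph whose edges are the first `t` entries of the list `l` -/
def graphAt {n : ℕ} (l : List (Sym2 (Fin n))) (t : ℕ) : SimpleGraph (Fin n) :=
  SimpleGraph.fromEdgeSet {e | e ∈ l.take t}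

/-- `K`-connected: more than `K` vertices, and connected after deleting any set of fewer than `K` vertices -/
def KConn {n : ℕ} (K : ℕ) (G : SimpleGraph (Fin n)) : Prop :=
  K < n ∧ ∀ S : Finset (Fin n), S.card < K → (G.induce ((S : Set (Fin n))ᶜ)).Connected

/-- every vertex has at least `K` neighbours -/
def MinDeg {n : ℕ} (K : ℕ) (G : SimpleGraph (Fin n)) : Prop :=
  ∀ v, K ≤ (G.neighborSet v).ncard

/-- the hitting time of the property `P`: the first `t` such that the graph of the first `t` edges has `P` -/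
noncomputable def hit {n : ℕ} (P : SimpleGraph (Fin n) → Prop) (l : List (Sym2 (Fin n))) : ℕ :=
  sInf {t | P (graphAt l t)}

theorem mem_allPairs {n : ℕ} {i j : Fin n} : s(i, j) ∈ allPairs n ↔ i ≠ j := by
  simp [allPairs]

theorem graphAt_adj {n : ℕ} {l : List (Sym2 (Fin n))} {t : ℕ} {i j : Fin n} :
    (graphAt l t).Adj i j ↔ s(i, j) ∈ l.take t ∧ i ≠ j := by
  simp [graphAt]

/-- the pair `e` has exactly one vertex in `U` -/
def Crs {n : ℕ} (U : Finset (Fin n)) (e : Sym2 (Fin n)) : Prop := ∃ i ∈ U, ∃ j, j ∉ U ∧ e = s(i, j)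

theorem crs_mk {n : ℕ} {U : Finset (Fin n)} {i j : Fin n} : Crs U s(i, j) ↔ ¬ (i ∈ U ↔ j ∈ U) := by
  constructor
  · rintro ⟨a, ha, b, hb, h⟩
    rw [Sym2.eq_iff] at h
    rcases h with ⟨rfl, rfl⟩ | ⟨rfl, rfl⟩
    · tauto
    · tauto
  · intro h
    by_cases hi : i ∈ U
    · have hj : j ∉ U := by tauto
      exact ⟨i, hi, j, hj, rfl⟩
    · have hj : j ∈ U := by tauto
      exact ⟨j, hj, i, hi, Sym2.eq_swap⟩

open Classical in
/-- the pairs inside `U` or outside `U` -/
noncomputable def inn {n : ℕ} (U : Finset (Fin n)) : Finset (Sym2 (Fin n)) := (allPairs n).filter fun e => ¬ Crs U e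

open Classical in
/-- the pairs with exactly one vertex in `U` -/
noncomputable def crs {n : ℕ} (U : Finset (Fin n)) : Finset (Sym2 (Fin n)) := (allPairs n).filter fun e => Crs U e

theorem inn_union {n : ℕ} (U : Finset (Fin n)) : inn U ∪ crs U = allPairs n := by
  classical
  unfold inn crs
  ext e
  simp only [Finset.mem_union, Finset.mem_filter]
  tauto

theorem inn_disj {n : ℕ} (U : Finset (Fin n)) : Disjoint (inn U) (crs U) := by
  classical
  rw [Finset.disjoint_left]
  unfold inn crs
  intro e h1 h2
  simp only [Finset.mem_filter] at h1 h2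
  exact h1.2 h2.2

theorem mem_inn {n : ℕ} {U : Finset (Fin n)} {i j : Fin n} : s(i, j) ∈ inn U ↔ i ≠ j ∧ (i ∈ U ↔ j ∈ U) := by
  classical
  unfold inn
  rw [Finset.mem_filter, mem_allPairs, crs_mk, not_not]

theorem mem_crs {n : ℕ} {U : Finset (Fin n)} {i j : Fin n} : s(i, j) ∈ crs U ↔ i ≠ j ∧ ¬ (i ∈ U ↔ j ∈ U) := by
  classical
  unfold crs
  rw [Finset.mem_filter, mem_allPairs, crs_mk]

private theorem reach_inv {V : Type*} (G : SimpleGraph V) (P : V → Prop)
    (h : ∀ a b, G.Adj a b → P a → P b) {a b : V} (hr : G.Reachable a b) : P a → P b := by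
  obtain ⟨p⟩ := hr
  induction p with
  | nil => exact id
  | cons hadj _ ih => exact fun ha => ih (h _ _ hadj ha)

private theorem nbr_card {n K : ℕ} {G : SimpleGraph (Fin n)} {v : Fin n} {T : Finset (Fin n)} (hT : K + 1 ≤ T.card)
    (h : ∀ u ∈ T, u ≠ v → G.Adj v u) : K ≤ (G.neighborSet v).ncard := by
  have h1 : ((T.erase v : Finset (Fin n)) : Set (Fin n)) ⊆ G.neighborSet v := by
    intro u hu
    rw [Finset.mem_coe, Finset.mem_erase] at hu
    exact h u hu.2 hu.1
  have h2 := Set.ncard_le_ncard h1 (Set.toFinite _)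
  rw [Set.ncard_coe_finset] at h2
  have h3 := Finset.pred_card_le_card_erase (s := T) (a := v)
  omega

/-- If all pairs that do not cross `U` come first and both `U` and its complement have more than `K` vertices, then the
minimum degree is at least `K` before the graph is connected. -/
theorem hit_lt {n K : ℕ} (hK : 1 ≤ K) (U : Finset (Fin n)) (hU : K + 1 ≤ U.card) (hU' : K + 1 ≤ Uᶜ.card)
    (l : List (Sym2 (Fin n))) (hnd : l.Nodup) (hmem : ∀ e, e ∈ l ↔ e ∈ allPairs n)
    (hfirst : ∀ e ∈ l.take (inn U).card, e ∈ inn U) : hit (MinDeg K) l < hit (KConn K) l := by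
  classical
  set m := (inn U).card with hm
  have hlen : l.length = (allPairs n).card := by
    rw [← List.toFinset_card_of_nodup hnd]
    congr 1
    ext e
    rw [List.mem_toFinset, hmem]
  have hml : m ≤ l.length := by
    rw [hlen, hm, ← inn_union U]
    exact Finset.card_le_card Finset.subset_union_left
  have htake : ∀ e, e ∈ l.take m ↔ e ∈ inn U := by
    have h1 : (l.take m).toFinset ⊆ inn U := by
      intro e he
      rw [List.mem_toFinset] at he
      exact hfirst e he
    have h2 : (l.take m).toFinset.card = (inn U).card := by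
      rw [List.toFinset_card_of_nodup (hnd.sublist (List.take_sublist _ _)), List.length_take, min_eq_left hml]
    have h3 := Finset.eq_of_subset_of_card_le h1 h2.ge
    intro e
    rw [← List.mem_toFinset, h3]
  -- minimum degree at time `m`
  have h1 : MinDeg K (graphAt l m) := by
    intro v
    by_cases hv : v ∈ U
    · refine nbr_card hU fun u hu huv => ?_
      rw [graphAt_adj, htake, mem_inn]
      exact ⟨⟨huv.symm, by tauto⟩, huv.symm⟩
    · refine nbr_card hU' fun u hu huv => ?_
      rw [Finset.mem_compl] at hu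
      rw [graphAt_adj, htake, mem_inn]
      exact ⟨⟨huv.symm, by tauto⟩, huv.symm⟩
  -- no connectivity up to time `m`
  have h2 : ∀ t, KConn K (graphAt l t) → m < t := by
    rintro t ⟨-, hc⟩
    by_contra hcon
    push Not at hcon
    obtain ⟨i, hi⟩ := Finset.card_pos.1 (show 0 < U.card by omega)
    obtain ⟨j, hj⟩ := Finset.card_pos.1 (show 0 < Uᶜ.card by omega)
    rw [Finset.mem_compl] at hj
    have h3 := hc ∅ (by rw [Finset.card_empty]; omega)
    have h4 := h3.preconnected ⟨i, by simp⟩ ⟨j, by simp⟩
    refine hj (reach_inv ((graphAt l t).induce (((∅ : Finset (Fin n)) : Set (Fin n))ᶜ))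
      (fun a => (a : Fin n) ∈ U) (fun a b hab ha => ?_) h4 hi)
    rw [SimpleGraph.induce_adj, graphAt_adj] at hab
    have h6 : s((a : Fin n), (b : Fin n)) ∈ l.take m := by
      exact (List.take_subset_take_left l hcon) hab.1
    rw [htake, mem_inn] at h6
    exact h6.2.1 ha
  -- connectivity at the end
  have h3 : KConn K (graphAt l l.length) := by
    have hn : K < n := by
      have := Finset.card_le_univ U
      rw [Fintype.card_fin] at this
      omega
    refine ⟨hn, fun S hS => ?_⟩
    have hadj : ∀ i j : Fin n, i ≠ j → (graphAt l l.length).Adj i j := by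
      intro i j hij
      rw [graphAt_adj, List.take_length, hmem, mem_allPairs]
      exact ⟨hij, hij⟩
    have hne : ∃ v : Fin n, v ∉ S := by
      by_contra hcon
      push Not at hcon
      have : S = Finset.univ := by ext v; simp [hcon v]
      rw [this, Finset.card_univ, Fintype.card_fin] at hS
      omega
    obtain ⟨v, hv⟩ := hne
    haveI : Nonempty ↥((S : Set (Fin n))ᶜ) := ⟨⟨v, by simpa using hv⟩⟩
    refine ⟨fun a b => ?_⟩
    by_cases hab : a = b
    · subst hab; exact SimpleGraph.Reachable.refl _
    · apply SimpleGraph.Adj.reachable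
      rw [SimpleGraph.induce_adj]
      exact hadj _ _ (fun h => hab (Subtype.ext h))
  have h4 : hit (MinDeg K) l ≤ m := Nat.sInf_le h1
  have h5 : m < hit (KConn K) l := h2 _ (Nat.sInf_mem (s := {t | KConn K (graphAt l t)}) ⟨_, h3⟩)
  omega

end Pool.Agent.HitW
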