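import Pool.Agent.Lib_MP_f2f003_ins.Main

/-!
# MP_f2f003_pr: the limit along a subsequence

Own library (helper59).
-/

set_option autoImplicit false

namespace Pool.Agent.HitW

open MeasureTheory Filter
open scoped ENNReal NNReal Topology

variable {Ω : Type*} [MeasurableSpace Ω]

/-- linear lower bound for the length of the blocks -/
theorem block_le {n K k : ℕ} {q : ℝ} (hq0 : 0 ≤ q) (hq : q ≤ 1) (h : ((k : ℝ) + 1) ^ 2 ≤ n * q) :
    ((k : ℝ) + 1) / (K + 1) - 1 ≤ q * (n / (K + 1) : ℕ) := by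
  have h1 : (n : ℝ) / (K + 1) - 1 ≤ ((n / (K + 1) : ℕ) : ℝ) := by
    have h2 : n < (K + 1) * (n / (K + 1)) + (K + 1) := by
      have h3 := Nat.div_add_mod n (K + 1)
      have h4 := Nat.mod_lt n (Nat.succ_pos K)
      have h5 : K.succ = K + 1 := rfl
      rw [h5] at h4
      omega
    have h3 : (n : ℝ) < ((K : ℝ) + 1) * ((n / (K + 1) : ℕ) : ℝ) + (K + 1) := by exact_mod_cast h2
    rw [sub_le_iff_le_add, div_le_iff₀ (by positivity)]
    nlinarith
  have h2 : q * ((n : ℝ) / (K + 1) - 1) ≤ q * ((n / (K + 1) : ℕ) : ℝ) := mul_le_mul_of_nonneg_left h1 hq0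
  refine le_trans ?_ h2
  have h3 : ((k : ℝ) + 1) / (K + 1) ≤ (n * q) / (K + 1) := by
    refine div_le_div_of_nonneg_right (le_trans ?_ h) (by positivity)
    nlinarith [(Nat.cast_nonneg k : (0 : ℝ) ≤ k)]
  have h4 : q * ((n : ℝ) / (K + 1) - 1) = (n * q) / (K + 1) - q := by ring
  rw [h4]
  linarith

theorem good_lim (μ : Measure Ω) [IsProbabilityMeasure μ] {φ : Ω → ℕ} (hφ : Measurable φ) (n : ℕ → ℕ)
    (h1 : ∀ k : ℕ, (n k : ℝ) * μ.real {ω | k + 1 < φ ω} ≤ 1 / ((k : ℝ) + 1))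
    (h2 : ∀ k : ℕ, ((k : ℝ) + 1) ^ 2 ≤ n k * μ.real {ω | φ ω = k + 1})
    (h3 : ∀ k : ℕ, μ.real {ω | φ ω = k + 1} ≤ 1 / 2) (K : ℕ) :
    Tendsto (fun k : ℕ => (Measure.pi fun _ : Fin (n k) => μ) (Good φ (n k) (n k / (K + 1)) K k)ᶜ) atTop (𝓝 0) := by
  have hq0 : ∀ k : ℕ, 0 ≤ μ.real {ω | φ ω = k + 1} := fun k => measureReal_nonneg
  have hbl : ∀ k : ℕ, ((k : ℝ) + 1) / (K + 1) - 1 ≤ μ.real {ω | φ ω = k + 1} * (n k / (K + 1) : ℕ) := fun k =>
    block_le (hq0 k) (by linarith [h3 k]) (h2 k)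
  have hlin : Tendsto (fun k : ℕ => ((k : ℝ) + 1) / ((K : ℝ) + 1) - 1) atTop atTop := by
    refine tendsto_atTop_add_const_right _ _ (Tendsto.atTop_div_const (by positivity) ?_)
    exact tendsto_atTop_add_const_right _ _ tendsto_natCast_atTop_atTop
  have hs : Tendsto (fun k : ℕ => n k / (K + 1)) atTop atTop := by
    rw [← tendsto_natCast_atTop_iff (R := ℝ)]
    refine tendsto_atTop_mono (fun k => ?_) hlin
    refine (hbl k).trans ?_
    have : μ.real {ω | φ ω = k + 1} ≤ 1 := by linarith [h3 k]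
    nlinarith [(Nat.cast_nonneg (n k / (K + 1)) : (0 : ℝ) ≤ ((n k / (K + 1) : ℕ) : ℝ))]
  -- the real bound
  have hb : Tendsto (fun k : ℕ => 1 / ((k : ℝ) + 1) + (((K : ℝ) + 1) * Real.exp (-(((k : ℝ) + 1) / (K + 1) - 1)) +
      ((K : ℝ) + 1) * (1 / 2 : ℝ) ^ (n k / (K + 1)))) atTop (𝓝 0) := by
    have e1 : Tendsto (fun k : ℕ => 1 / ((k : ℝ) + 1)) atTop (𝓝 0) := tendsto_one_div_add_atTop_nhds_zero_nat
    have e2 : Tendsto (fun k : ℕ => ((K : ℝ) + 1) * Real.exp (-(((k : ℝ) + 1) / (K + 1) - 1))) atTop (𝓝 0) := by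
      have := (Real.tendsto_exp_neg_atTop_nhds_zero.comp hlin).const_mul ((K : ℝ) + 1)
      rw [mul_zero] at this
      exact this
    have e3 : Tendsto (fun k : ℕ => ((K : ℝ) + 1) * (1 / 2 : ℝ) ^ (n k / (K + 1))) atTop (𝓝 0) := by
      have := ((tendsto_pow_atTop_nhds_zero_of_lt_one (r := (1 / 2 : ℝ)) (by norm_num) (by norm_num)).comp hs).const_mul
        ((K : ℝ) + 1)
      rw [mul_zero] at this
      exact this
    have := e1.add (e2.add e3)
    simpa using this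
  have hb' := ENNReal.tendsto_ofReal hb
  rw [ENNReal.ofReal_zero] at hb'
  refine tendsto_of_tendsto_of_tendsto_of_le_of_le tendsto_const_nhds hb' (fun k => bot_le) fun k => ?_
  refine (good_compl μ φ (Nat.mul_div_le _ _)).trans ?_
  rw [ENNReal.ofReal_add (by positivity) (by positivity), ENNReal.ofReal_add (by positivity) (by positivity)]
  refine add_le_add ?_ (add_le_add ?_ ?_)
  · rw [← ofReal_measureReal (measure_ne_top μ _), ← ENNReal.ofReal_natCast, ← ENNReal.ofReal_mul (by positivity)]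
    exact ENNReal.ofReal_le_ofReal (h1 k)
  · rw [← ofReal_measureReal (measure_ne_top μ _), ← ENNReal.ofReal_pow measureReal_nonneg,
      ← ENNReal.ofReal_natCast, ← ENNReal.ofReal_mul (by positivity)]
    refine ENNReal.ofReal_le_ofReal ?_
    push_cast
    refine mul_le_mul_of_nonneg_left ?_ (by positivity)
    have hc : μ.real {ω | φ ω ≠ k + 1} = 1 - μ.real {ω | φ ω = k + 1} := by
      have hm : MeasurableSet {ω | φ ω = k + 1} := hφ (MeasurableSet.of_discrete (s := {k + 1}))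
      have := probReal_compl_eq_one_sub (μ := μ) hm
      rw [← this]
      rfl
    rw [hc]
    calc (1 - μ.real {ω | φ ω = k + 1}) ^ (n k / (K + 1))
        ≤ (Real.exp (-μ.real {ω | φ ω = k + 1})) ^ (n k / (K + 1)) := by
          refine pow_le_pow_left₀ (by linarith [h3 k]) ?_ _
          have := Real.add_one_le_exp (-μ.real {ω | φ ω = k + 1})
          linarith
      _ = Real.exp (-(μ.real {ω | φ ω = k + 1} * (n k / (K + 1) : ℕ))) := by
          rw [← Real.exp_nat_mul]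
          congr 1
          ring
      _ ≤ _ := Real.exp_le_exp.2 (neg_le_neg (hbl k))
  · rw [← ofReal_measureReal (measure_ne_top μ _), ← ENNReal.ofReal_pow measureReal_nonneg,
      ← ENNReal.ofReal_natCast, ← ENNReal.ofReal_mul (by positivity)]
    refine ENNReal.ofReal_le_ofReal ?_
    push_cast
    exact mul_le_mul_of_nonneg_left (pow_le_pow_left₀ (hq0 k) (h3 k) _) (by positivity)

theorem main (μ : Measure Ω) [IsProbabilityMeasure μ]
    (h : ∀ ε : ℝ≥0∞, 0 < ε → ∃ A, MeasurableSet A ∧ 0 < μ A ∧ μ A < ε) :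
    ∃ W : Ω → Ω → ℝ, Measurable (Function.uncurry W) ∧ (∀ a b, W a b = W b a) ∧
      (∀ a b, 0 < W a b ∧ W a b ≤ 1) ∧
      (∀ A : Set Ω, MeasurableSet A → 0 < μ A → μ A < 1 → 0 < ∫ p in A ×ˢ Aᶜ, W p.1 p.2 ∂(μ.prod μ)) ∧
      ∃ n : ℕ → ℕ, Tendsto n atTop atTop ∧ ∀ K : ℕ, 1 ≤ K →
        Tendsto (fun k => prob μ W (n k) {l | hit (MinDeg K) l < hit (KConn K) l}) atTop (𝓝 1) := by
  obtain ⟨φ, n, hφ, h1, h2, h3⟩ := exists_types μ h
  have hWm : Measurable (Function.uncurry fun a b => (WN n (φ a) (φ b) : ℝ)) := by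
    have : (Function.uncurry fun a b => (WN n (φ a) (φ b) : ℝ)) =
        (fun p : ℕ × ℕ => (WN n p.1 p.2 : ℝ)) ∘ (fun p : Ω × Ω => (φ p.1, φ p.2)) := rfl
    rw [this]
    exact Measurable.of_discrete.comp ((hφ.comp measurable_fst).prodMk (hφ.comp measurable_snd))
  have hW0 : ∀ a b : Ω, (0 : ℝ) < (WN n (φ a) (φ b) : ℝ) := fun a b => by exact_mod_cast WN_pos n _ _
  have hW1 : ∀ a b : Ω, (WN n (φ a) (φ b) : ℝ) ≤ 1 := fun a b => by exact_mod_cast WN_le_one n _ _
  refine ⟨fun a b => (WN n (φ a) (φ b) : ℝ), hWm, fun a b => by simp only [WN_symm n (φ a) (φ b)],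
    fun a b => ⟨hW0 a b, hW1 a b⟩, fun A hA h0 h01 => ?_, n, ?_, fun K hK => ?_⟩
  · have hint : Integrable (fun p : Ω × Ω => (WN n (φ p.1) (φ p.2) : ℝ)) ((μ.prod μ).restrict (A ×ˢ Aᶜ)) := by
      refine Integrable.of_bound (C := 1) hWm.aestronglyMeasurable ?_
      refine Filter.Eventually.of_forall fun p => ?_
      rw [Real.norm_eq_abs, abs_of_nonneg (hW0 _ _).le]
      exact hW1 _ _
    rw [integral_pos_iff_support_of_nonneg (fun p => (hW0 _ _).le) hint]
    have : Function.support (fun p : Ω × Ω => (WN n (φ p.1) (φ p.2) : ℝ)) = Set.univ := by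
      ext p
      simp only [Function.mem_support, Set.mem_univ, iff_true]
      exact (hW0 _ _).ne'
    rw [this, Measure.restrict_apply_univ, Measure.prod_prod]
    refine ENNReal.mul_pos h0.ne' ?_
    rw [prob_compl_eq_one_sub hA]
    exact (tsub_pos_of_lt h01).ne'
  · rw [← tendsto_natCast_atTop_iff (R := ℝ)]
    refine tendsto_atTop_mono (fun k => ?_) (tendsto_atTop_add_const_right _ (1 : ℝ) tendsto_natCast_atTop_atTop)
    have h4 := h2 k
    have h5 := h3 k
    have h6 : 0 ≤ (n k : ℝ) := Nat.cast_nonneg _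
    have h7 : (0 : ℝ) ≤ k := Nat.cast_nonneg _
    nlinarith
  · have e1 : Tendsto (fun k : ℕ => ENNReal.ofReal (1 / ((k : ℝ) + 1))) atTop (𝓝 0) := by
      have := ENNReal.tendsto_ofReal (tendsto_one_div_add_atTop_nhds_zero_nat (𝕜 := ℝ))
      rwa [ENNReal.ofReal_zero] at this
    have e2 := good_lim μ hφ n h1 h2 h3 K
    have e3 : Tendsto (fun k : ℕ => (1 - ENNReal.ofReal (1 / ((k : ℝ) + 1))) * (1 - (Measure.pi fun _ : Fin (n k) => μ)
        (Good φ (n k) (n k / (K + 1)) K k)ᶜ)) atTop (𝓝 1) := by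
      have f1 := ENNReal.Tendsto.sub (tendsto_const_nhds (x := (1 : ℝ≥0∞))) e1 (Or.inl ENNReal.one_ne_top)
      have f2 := ENNReal.Tendsto.sub (tendsto_const_nhds (x := (1 : ℝ≥0∞))) e2 (Or.inl ENNReal.one_ne_top)
      have f3 := ENNReal.Tendsto.mul f1 (Or.inr (by simp)) f2 (Or.inr (by simp))
      simpa using f3
    refine tendsto_of_tendsto_of_tendsto_of_le_of_le e3 tendsto_const_nhds (fun k => prob_ge μ hK hφ n k) fun k => ?_
    unfold prob
    calc _ ≤ ∫⁻ _ : Fin (n k) → Ω, 1 ∂(Measure.pi fun _ => μ) := by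
          refine lintegral_mono fun x => ?_
          calc _ ≤ (proc (wt (fun a b => (WN n (φ a) (φ b) : ℝ)) x) (allPairs (n k)).card
                (allPairs (n k))).toOuterMeasure Set.univ := measure_mono (Set.subset_univ _)
            _ = 1 := by rw [PMF.toOuterMeasure_apply_eq_one_iff]; exact Set.subset_univ _
      _ = 1 := by simp

/-- Lebesgue measure on the unit interval has sets of arbitrarily small positive measure. -/
theorem unit_small : ∀ ε : ℝ≥0∞, 0 < ε → ∃ A : Set unitInterval, MeasurableSet A ∧ 0 < volume A ∧ volume A < ε := by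
  intro ε hε
  obtain ⟨r, hr0, hr⟩ := ENNReal.lt_iff_exists_nnreal_btwn.1 (lt_min hε one_pos)
  have hr0' : (0 : ℝ) < r := by exact_mod_cast hr0
  have hr1 : (r : ℝ≥0∞) < 1 := lt_of_lt_of_le hr (min_le_right _ _)
  have hr1' : (r : ℝ) ≤ 1 := by exact_mod_cast hr1.le
  refine ⟨Set.Iio ⟨r, hr0'.le, hr1'⟩, measurableSet_Iio, ?_, ?_⟩
  · rw [unitInterval.volume_Iio]
    simpa using hr0'
  · rw [unitInterval.volume_Iio]
    refine lt_of_le_of_lt ?_ (lt_of_lt_of_le hr (min_le_left _ _))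
    rw [ENNReal.ofReal_le_iff_le_toReal ENNReal.coe_ne_top]
    simp

end Pool.Agent.HitW
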