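import Pool.Agent.Lib_MP_f2f003_ins.Typ

/-!
# MP_f2f003_pr: a graphon for which the two hitting times differ

Own library (helper59).
-/

set_option autoImplicit false

namespace Pool.Agent.HitW

open MeasureTheory Filter
open scoped ENNReal NNReal Topology

variable {Ω : Type*} [MeasurableSpace Ω]

/-- the weight `W (x i) (x j)` of the pair `{i, j}` (for symmetric `W`) -/
noncomputable def wt {n : ℕ} (W : Ω → Ω → ℝ) (x : Fin n → Ω) (e : Sym2 (Fin n)) : ℝ≥0 :=
  Real.toNNReal (W (x e.inf) (x e.sup))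

/-- The probability that the list of all edges of the `W`-edge-incremental process of order `n`, in the order of their
appearance, lies in `E`: the types `x` are independent with law `μ`, and given `x` the list has the law `proc`. -/
noncomputable def prob (μ : Measure Ω) (W : Ω → Ω → ℝ) (n : ℕ) (E : Set (List (Sym2 (Fin n)))) : ℝ≥0∞ :=
  ∫⁻ x : Fin n → Ω, (proc (wt W x) (allPairs n).card (allPairs n)).toOuterMeasure E ∂(Measure.pi fun _ => μ)

/-- the weights between different types -/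
noncomputable def cc (n : ℕ → ℕ) : ℕ → ℝ≥0
  | 0 => 1
  | k + 1 => cc n k / (((k : ℝ≥0) + 1) * ((n k : ℝ≥0) + 1) ^ 4)

theorem cc_pos (n : ℕ → ℕ) (k : ℕ) : 0 < cc n k := by
  induction k with
  | zero => exact one_pos
  | succ k ih => rw [cc]; positivity

theorem cc_succ_le (n : ℕ → ℕ) (k : ℕ) : cc n (k + 1) ≤ cc n k := by
  rw [cc]
  refine div_le_self (cc_pos n k).le ?_
  have h1 : (1 : ℝ≥0) ≤ (k : ℝ≥0) + 1 := le_add_of_nonneg_left (by positivity)
  have h2 : (1 : ℝ≥0) ≤ ((n k : ℝ≥0) + 1) ^ 4 := one_le_pow₀ (le_add_of_nonneg_left (by positivity))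
  calc (1 : ℝ≥0) = 1 * 1 := (one_mul 1).symm
    _ ≤ _ := mul_le_mul' h1 h2

theorem cc_anti (n : ℕ → ℕ) : Antitone (cc n) := antitone_nat_of_succ_le (cc_succ_le n)

theorem cc_le_one (n : ℕ → ℕ) (k : ℕ) : cc n k ≤ 1 := (cc_anti n (Nat.zero_le k)).trans le_rfl

/-- the graphon on the types -/
noncomputable def WN (n : ℕ → ℕ) (i j : ℕ) : ℝ≥0 := if i = j then 1 else cc n (max i j)

theorem WN_symm (n : ℕ → ℕ) (i j : ℕ) : WN n i j = WN n j i := by
  unfold WN
  simp only [eq_comm, max_comm]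

theorem WN_pos (n : ℕ → ℕ) (i j : ℕ) : 0 < WN n i j := by
  unfold WN
  split_ifs
  · exact one_pos
  · exact cc_pos _ _

theorem WN_le_one (n : ℕ → ℕ) (i j : ℕ) : WN n i j ≤ 1 := by
  unfold WN
  split_ifs
  · exact le_rfl
  · exact cc_le_one _ _

theorem card_allPairs (n : ℕ) : (allPairs n).card ≤ n ^ 2 := by
  calc (allPairs n).card ≤ Fintype.card (Sym2 (Fin n)) := Finset.card_le_univ _
    _ ≤ Fintype.card (Fin n × Fin n) :=
        Fintype.card_le_of_surjective (fun p : Fin n × Fin n => s(p.1, p.2)) fun e => by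
          induction e using Sym2.ind with
          | _ i j => exact ⟨(i, j), rfl⟩
    _ = n ^ 2 := by simp [sq]

/-- given good types, the two hitting times differ with probability at least `1 - 1 / (k + 1)` -/
theorem cond_prob {K : ℕ} (hK : 1 ≤ K) (φ : Ω → ℕ) (n : ℕ → ℕ) (k : ℕ) (x : Fin (n k) → Ω) (hx : ∀ i, φ (x i) ≤ k + 1)
    (U : Finset (Fin (n k))) (hU : ∀ i, i ∈ U ↔ φ (x i) = k + 1) (h1 : K + 1 ≤ U.card) (h2 : K + 1 ≤ Uᶜ.card) :
    1 - ENNReal.ofReal (1 / ((k : ℝ) + 1)) ≤
      (proc (wt (fun a b => (WN n (φ a) (φ b) : ℝ)) x) (allPairs (n k)).card (allPairs (n k))).toOuterMeasure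
        {l | hit (MinDeg K) l < hit (KConn K) l} := by
  set w := wt (fun a b => (WN n (φ a) (φ b) : ℝ)) x with hw
  have hwt : ∀ i j : Fin (n k), w s(i, j) = WN n (φ (x i)) (φ (x j)) := by
    intro i j
    rw [hw]
    unfold wt
    rw [Sym2.inf_mk, Sym2.sup_mk, Real.toNNReal_coe]
    rcases le_total i j with h | h
    · rw [inf_eq_left.2 h, sup_eq_right.2 h]
    · rw [inf_eq_right.2 h, sup_eq_left.2 h, WN_symm]
  have hin : ∀ e ∈ inn U, cc n k ≤ w e := by
    intro e he
    induction e using Sym2.ind with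
    | _ i j =>
      rw [mem_inn] at he
      rw [hwt]
      unfold WN
      split_ifs with h
      · exact cc_le_one _ _
      · apply cc_anti n
        have hi := hx i
        have hj := hx j
        have hi' : ¬ φ (x i) = k + 1 := fun h' => by
          have := (hU j).1 (he.2.1 ((hU i).2 h'))
          omega
        have hj' : ¬ φ (x j) = k + 1 := fun h' => by
          have := (hU i).1 (he.2.2 ((hU j).2 h'))
          omega
        omega
  have hcr : ∀ e ∈ crs U, w e = cc n (k + 1) := by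
    intro e he
    induction e using Sym2.ind with
    | _ i j =>
      rw [mem_crs] at he
      rw [hwt]
      unfold WN
      have hi := hx i
      have hj := hx j
      rw [hU, hU] at he
      rw [if_neg (by omega)]
      congr 1
      omega
  -- the ratio
  set δ : ℝ≥0 := (n k : ℝ≥0) ^ 2 * (cc n (k + 1) / cc n k) with hδ
  have hccr : cc n (k + 1) / cc n k = 1 / (((k : ℝ≥0) + 1) * ((n k : ℝ≥0) + 1) ^ 4) := by
    have := (cc_pos n k).ne'
    rw [cc]
    field_simp
  have hw1 : ∀ a ∈ inn U, 0 < w a ∧ ∑ b ∈ crs U, w b ≤ δ * w a := by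
    intro a ha
    refine ⟨lt_of_lt_of_le (cc_pos n k) (hin a ha), ?_⟩
    calc ∑ b ∈ crs U, w b = (crs U).card * cc n (k + 1) := by
          rw [Finset.sum_congr rfl hcr, Finset.sum_const, nsmul_eq_mul]
      _ ≤ (n k : ℝ≥0) ^ 2 * cc n (k + 1) := by
          refine mul_le_mul_left ?_ _
          have : (crs U).card ≤ (n k) ^ 2 :=
            (Finset.card_le_card (by rw [← inn_union U]; exact Finset.subset_union_right)).trans (card_allPairs _)
          exact_mod_cast this
      _ = δ * cc n k := by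
          rw [hδ, mul_assoc, div_mul_cancel₀ _ (cc_pos n k).ne']
      _ ≤ δ * w a := mul_le_mul_right (hin a ha) _
  have hfirst := proc_first w δ (crs U) (inn U).card (inn U) rfl (inn_disj U) hw1
  rw [inn_union] at hfirst
  have hbound : ((inn U).card : ℝ≥0∞) * δ ≤ ENNReal.ofReal (1 / ((k : ℝ) + 1)) := by
    have h3 : ((inn U).card : ℝ≥0) * δ ≤ 1 / ((k : ℝ≥0) + 1) := by
      have h4 : ((inn U).card : ℝ≥0) ≤ (n k : ℝ≥0) ^ 2 := by
        have : (inn U).card ≤ (n k) ^ 2 :=
          (Finset.card_le_card (by rw [← inn_union U]; exact Finset.subset_union_left)).trans (card_allPairs _)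
        exact_mod_cast this
      calc ((inn U).card : ℝ≥0) * δ ≤ (n k : ℝ≥0) ^ 2 * δ := mul_le_mul_left h4 _
        _ = (n k : ℝ≥0) ^ 4 / ((n k : ℝ≥0) + 1) ^ 4 * (1 / ((k : ℝ≥0) + 1)) := by
            rw [hδ, hccr]
            field_simp
        _ ≤ 1 * (1 / ((k : ℝ≥0) + 1)) := by
            refine mul_le_mul_left ?_ _
            rw [div_le_one (by positivity)]
            exact pow_le_pow_left₀ (by positivity) (le_add_of_nonneg_right (by positivity)) 4
        _ = _ := one_mul _
    calc ((inn U).card : ℝ≥0∞) * δ = ((((inn U).card : ℝ≥0) * δ : ℝ≥0) : ℝ≥0∞) := by push_cast; rfl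
      _ ≤ ((1 / ((k : ℝ≥0) + 1) : ℝ≥0) : ℝ≥0∞) := ENNReal.coe_le_coe.2 h3
      _ = ENNReal.ofReal (1 / ((k : ℝ) + 1)) := by
          rw [ENNReal.ofReal]
          congr 1
          rw [← NNReal.coe_inj, Real.coe_toNNReal _ (by positivity)]
          push_cast
          rfl
  have hperm := proc_perm w (allPairs (n k)).card (allPairs (n k)) rfl
  set P := (proc w (allPairs (n k)).card (allPairs (n k))).toOuterMeasure with hP
  have huniv : P Set.univ = 1 := by
    rw [hP, PMF.toOuterMeasure_apply_eq_one_iff]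
    exact Set.subset_univ _
  rw [tsub_le_iff_right, ← huniv]
  calc P Set.univ ≤ P ({l | hit (MinDeg K) l < hit (KConn K) l} ∪
        ({l | ¬ ∀ e ∈ l.take (inn U).card, e ∈ inn U} ∪ {l | ¬ (l.Nodup ∧ ∀ e, e ∈ l ↔ e ∈ allPairs (n k))})) := by
        refine measure_mono fun l _ => ?_
        simp only [Set.mem_union, Set.mem_setOf_eq]
        by_contra hcon
        push Not at hcon
        exact absurd (hit_lt hK U h1 h2 l hcon.2.2.1 hcon.2.2.2 hcon.2.1) (not_lt.2 hcon.1)
    _ ≤ P {l | hit (MinDeg K) l < hit (KConn K) l} +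
        (P {l | ¬ ∀ e ∈ l.take (inn U).card, e ∈ inn U} +
          P {l | ¬ (l.Nodup ∧ ∀ e, e ∈ l ↔ e ∈ allPairs (n k))}) :=
        (measure_union_le _ _).trans (add_le_add le_rfl (measure_union_le _ _))
    _ ≤ P {l | hit (MinDeg K) l < hit (KConn K) l} + ENNReal.ofReal (1 / ((k : ℝ) + 1)) := by
        rw [hperm, add_zero]
        exact add_le_add le_rfl (hfirst.trans hbound)

/-- the block `b` of length `s` -/
def blk (n s b : ℕ) : Finset (Fin n) := Finset.univ.filter fun i => b * s ≤ i.val ∧ i.val < (b + 1) * s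

theorem blk_card {n s K b : ℕ} (hs : (K + 1) * s ≤ n) (hb : b < K + 1) : (blk n s b).card = s := by
  have h1 : (b + 1) * s ≤ n := (Nat.mul_le_mul_right s hb).trans hs
  have h2 : (blk n s b).map Fin.valEmbedding = Finset.Ico (b * s) ((b + 1) * s) := by
    ext a
    simp only [blk, Finset.mem_map, Finset.mem_filter, Finset.mem_univ, true_and, Fin.valEmbedding_apply,
      Finset.mem_Ico]
    constructor
    · rintro ⟨i, hi, rfl⟩
      exact hi
    · intro ha
      exact ⟨⟨a, by omega⟩, ha, rfl⟩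
  rw [← Finset.card_map Fin.valEmbedding, h2, Nat.card_Ico]
  rw [Nat.add_mul, Nat.one_mul, Nat.add_sub_cancel_left]

theorem pi_avoid (μ : Measure Ω) [IsProbabilityMeasure μ] {n : ℕ} (T : Finset (Fin n)) (A : Set Ω) :
    (Measure.pi fun _ : Fin n => μ) {x | ∀ i ∈ T, x i ∈ A} = μ A ^ T.card := by
  classical
  have h : {x : Fin n → Ω | ∀ i ∈ T, x i ∈ A} = Set.univ.pi fun i => if i ∈ T then A else Set.univ := by
    ext x
    simp only [Set.mem_setOf_eq, Set.mem_pi, Set.mem_univ, forall_const]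
    refine forall_congr' fun i => ?_
    split_ifs with hi
    · simp [hi]
    · simp [hi]
  rw [h, Measure.pi_pi]
  have h2 : ∀ i : Fin n, μ (if i ∈ T then A else Set.univ) = if i ∈ T then μ A else 1 := by
    intro i
    split_ifs
    · rfl
    · exact measure_univ
  rw [Finset.prod_congr rfl fun i _ => h2 i, Finset.prod_ite_mem, Finset.univ_inter, Finset.prod_const]

theorem card_of_blocks {n s K : ℕ} (U : Finset (Fin n))
    (h : ∀ b ∈ Finset.range (K + 1), ∃ i ∈ blk n s b, i ∈ U) : K + 1 ≤ U.card := by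
  classical
  haveI : Nonempty (Fin n) := ⟨(h 0 (by simp)).choose⟩
  choose! f hf1 hf2 using h
  have : (Finset.range (K + 1)).card ≤ U.card := by
    refine Finset.card_le_card_of_injOn f (fun b hb => hf2 b hb) ?_
    intro b hb c hc hbc
    have h1 := hf1 b hb
    have h2 := hf1 c hc
    rw [hbc] at h1
    simp only [blk, Finset.mem_filter, Finset.mem_univ, true_and] at h1 h2
    by_contra hne
    rcases lt_or_gt_of_ne hne with hlt | hlt
    · have := Nat.mul_le_mul_right s (show b + 1 ≤ c from hlt)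
      omega
    · have := Nat.mul_le_mul_right s (show c + 1 ≤ b from hlt)
      omega
  rwa [Finset.card_range] at this

/-- the good types -/
def Good (φ : Ω → ℕ) (n s K k : ℕ) : Set (Fin n → Ω) :=
  {x | (∀ i, φ (x i) ≤ k + 1) ∧ (∀ b ∈ Finset.range (K + 1), ∃ i ∈ blk n s b, φ (x i) = k + 1) ∧
    ∀ b ∈ Finset.range (K + 1), ∃ i ∈ blk n s b, φ (x i) ≠ k + 1}

theorem good_meas {φ : Ω → ℕ} (hφ : Measurable φ) (n s K k : ℕ) : MeasurableSet (Good φ n s K k) := by
  have h0 : ∀ (p : ℕ → Prop) (i : Fin n), MeasurableSet {x : Fin n → Ω | p (φ (x i))} := fun p i =>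
    (hφ.comp (measurable_pi_apply i)) (MeasurableSet.of_discrete (s := {m : ℕ | p m}))
  have h1 : Good φ n s K k = (⋂ i, {x | φ (x i) ≤ k + 1}) ∩
      ((⋂ b ∈ Finset.range (K + 1), ⋃ i ∈ blk n s b, {x | φ (x i) = k + 1}) ∩
        ⋂ b ∈ Finset.range (K + 1), ⋃ i ∈ blk n s b, {x | φ (x i) ≠ k + 1}) := by
    ext x
    simp only [Good, Set.mem_setOf_eq, Set.mem_inter_iff, Set.mem_iInter, Set.mem_iUnion, exists_prop]
  rw [h1]
  refine (MeasurableSet.iInter fun i => h0 (fun m => m ≤ k + 1) i).inter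
    ((Finset.measurableSet_biInter _ fun b _ => Finset.measurableSet_biUnion _ fun i _ => h0 (fun m => m = k + 1) i).inter
      (Finset.measurableSet_biInter _ fun b _ => Finset.measurableSet_biUnion _ fun i _ => h0 (fun m => m ≠ k + 1) i))

theorem good_compl (μ : Measure Ω) [IsProbabilityMeasure μ] (φ : Ω → ℕ) {n s K k : ℕ} (hs : (K + 1) * s ≤ n) :
    (Measure.pi fun _ : Fin n => μ) (Good φ n s K k)ᶜ ≤
      n * μ {ω | k + 1 < φ ω} + ((K + 1 : ℕ) * μ {ω | φ ω ≠ k + 1} ^ s + (K + 1 : ℕ) * μ {ω | φ ω = k + 1} ^ s) := by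
  classical
  set P := Measure.pi fun _ : Fin n => μ with hP
  have hsub : (Good φ n s K k)ᶜ ⊆ (⋃ i ∈ (Finset.univ : Finset (Fin n)), {x : Fin n → Ω | ∀ j ∈ ({i} : Finset (Fin n)), x j ∈ {ω | k + 1 < φ ω}}) ∪
      ((⋃ b ∈ Finset.range (K + 1), {x : Fin n → Ω | ∀ i ∈ blk n s b, x i ∈ {ω | φ ω ≠ k + 1}}) ∪
        ⋃ b ∈ Finset.range (K + 1), {x : Fin n → Ω | ∀ i ∈ blk n s b, x i ∈ {ω | φ ω = k + 1}}) := by
    intro x hx
    by_contra hcon
    apply hx
    simp only [Set.mem_union, Set.mem_iUnion, not_or, not_exists, Set.mem_setOf_eq, exists_prop, not_and,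
      Finset.mem_singleton, forall_eq, Finset.mem_univ, forall_true_left] at hcon
    refine ⟨fun i => not_lt.1 (hcon.1 i), fun b hb => ?_, fun b hb => ?_⟩
    · have := hcon.2.1 b hb
      push Not at this
      exact this
    · have := hcon.2.2 b hb
      push Not at this
      exact this
  refine (measure_mono hsub).trans ((measure_union_le _ _).trans (add_le_add ?_ ((measure_union_le _ _).trans
    (add_le_add ?_ ?_))))
  · refine (measure_biUnion_finset_le _ _).trans ?_
    rw [Finset.sum_congr rfl fun i _ => pi_avoid μ {i} {ω | k + 1 < φ ω}]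
    simp
  · refine (measure_biUnion_finset_le _ _).trans ?_
    rw [Finset.sum_congr rfl fun b hb => by
      rw [pi_avoid μ (blk n s b) {ω | φ ω ≠ k + 1}, blk_card hs (Finset.mem_range.1 hb)]]
    rw [Finset.sum_const, Finset.card_range, nsmul_eq_mul]
  · refine (measure_biUnion_finset_le _ _).trans ?_
    rw [Finset.sum_congr rfl fun b hb => by
      rw [pi_avoid μ (blk n s b) {ω | φ ω = k + 1}, blk_card hs (Finset.mem_range.1 hb)]]
    rw [Finset.sum_const, Finset.card_range, nsmul_eq_mul]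

theorem prob_ge (μ : Measure Ω) [IsProbabilityMeasure μ] {K : ℕ} (hK : 1 ≤ K) {φ : Ω → ℕ} (hφ : Measurable φ)
    (n : ℕ → ℕ) (k : ℕ) :
    (1 - ENNReal.ofReal (1 / ((k : ℝ) + 1))) * (1 - (Measure.pi fun _ : Fin (n k) => μ)
      (Good φ (n k) (n k / (K + 1)) K k)ᶜ) ≤
      prob μ (fun a b => (WN n (φ a) (φ b) : ℝ)) (n k) {l | hit (MinDeg K) l < hit (KConn K) l} := by
  classical
  set G := Good φ (n k) (n k / (K + 1)) K k with hG
  set P := Measure.pi fun _ : Fin (n k) => μ with hP
  have hGm : MeasurableSet G := good_meas hφ _ _ _ _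
  unfold prob
  calc (1 - ENNReal.ofReal (1 / ((k : ℝ) + 1))) * (1 - P Gᶜ)
      = (1 - ENNReal.ofReal (1 / ((k : ℝ) + 1))) * P G := by
        rw [← prob_compl_eq_one_sub hGm.compl, compl_compl]
    _ = ∫⁻ _ in G, (1 - ENNReal.ofReal (1 / ((k : ℝ) + 1))) ∂P := by
        rw [setLIntegral_const]
    _ ≤ ∫⁻ x in G, (proc (wt (fun a b => (WN n (φ a) (φ b) : ℝ)) x) (allPairs (n k)).card
          (allPairs (n k))).toOuterMeasure {l | hit (MinDeg K) l < hit (KConn K) l} ∂P := by
        refine setLIntegral_mono' hGm fun x hx => ?_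
        obtain ⟨h1, h2, h3⟩ := hx
        refine cond_prob hK φ n k x h1 (Finset.univ.filter fun i => φ (x i) = k + 1) (by simp) ?_ ?_
        · refine card_of_blocks (s := n k / (K + 1)) _ fun b hb => ?_
          obtain ⟨i, hi, hi'⟩ := h2 b hb
          exact ⟨i, hi, by simpa using hi'⟩
        · refine card_of_blocks (s := n k / (K + 1)) _ fun b hb => ?_
          obtain ⟨i, hi, hi'⟩ := h3 b hb
          exact ⟨i, hi, by simpa using hi'⟩
    _ ≤ _ := setLIntegral_le_lintegral _ _

end Pool.Agent.HitW
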