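import Mathlib

/-!
# MP_f2f003_pr: the edge process as a probability mass function

Own library (helper59).
-/

set_option autoImplicit false

namespace Pool.Agent.HitW

open MeasureTheory
open scoped ENNReal NNReal

/-- The law of one step: a random element of the nonempty finite set `R`. The element `e` is chosen with probability
`w e / ∑ b ∈ R, w b` if the sum is not zero, and with probability `1 / |R|` otherwise. -/
noncomputable def step {α : Type*} [DecidableEq α] (w : α → ℝ≥0) (R : Finset α) (hR : R.Nonempty) : PMF α :=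
  if h : ∑ b ∈ R, w b = 0 then PMF.uniformOfFinset R hR
  else PMF.ofFinset (fun e => if e ∈ R then ((w e / ∑ b ∈ R, w b : ℝ≥0) : ℝ≥0∞) else 0) R
    (by
      rw [Finset.sum_congr rfl (fun e he => if_pos he)]
      rw [← ENNReal.coe_finset_sum, ← Finset.sum_div, div_self h, ENNReal.coe_one])
    (fun e he => if_neg he)

/-- The law of the list of the first `m` edges, in the order in which they appear, when `R` is the set of the pairs that
are not yet edges: choose the next edge `e` by `step w R`, then continue with `R` without `e`; stop when `R` is empty. -/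
noncomputable def proc {α : Type*} [DecidableEq α] (w : α → ℝ≥0) : ℕ → Finset α → PMF (List α)
  | 0, _ => PMF.pure []
  | m + 1, R =>
    if hR : R.Nonempty then (step w R hR).bind fun e => (proc w m (R.erase e)).map fun l => e :: l
    else PMF.pure []

variable {α : Type*} [DecidableEq α]

theorem step_notMem (w : α → ℝ≥0) (R : Finset α) (hR : R.Nonempty) {e : α} (he : e ∉ R) : step w R hR e = 0 := by
  unfold step
  split_ifs with h
  · exact PMF.uniformOfFinset_apply_of_notMem hR he
  · rw [PMF.ofFinset_apply, if_neg he]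

theorem step_mem (w : α → ℝ≥0) (R : Finset α) (hR : R.Nonempty) (h : ∑ b ∈ R, w b ≠ 0) {e : α} (he : e ∈ R) :
    step w R hR e = ((w e / ∑ b ∈ R, w b : ℝ≥0) : ℝ≥0∞) := by
  unfold step
  rw [dif_neg h, PMF.ofFinset_apply, if_pos he]

theorem step_sum (w : α → ℝ≥0) (R : Finset α) (hR : R.Nonempty) (F : α → ℝ≥0∞) :
    ∑' e, step w R hR e * F e = ∑ e ∈ R, step w R hR e * F e :=
  tsum_eq_sum fun e he => by rw [step_notMem w R hR he, zero_mul]

theorem step_total (w : α → ℝ≥0) (R : Finset α) (hR : R.Nonempty) : ∑ e ∈ R, step w R hR e = 1 := by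
  have h := step_sum w R hR (fun _ => 1)
  simp only [mul_one] at h
  rw [← h]
  exact (step w R hR).tsum_coe

theorem proc_succ (w : α → ℝ≥0) (m : ℕ) (R : Finset α) (hR : R.Nonempty) (s : Set (List α)) :
    (proc w (m + 1) R).toOuterMeasure s =
      ∑ e ∈ R, step w R hR e * (proc w m (R.erase e)).toOuterMeasure ((fun l => e :: l) ⁻¹' s) := by
  have h : proc w (m + 1) R = (step w R hR).bind fun e => (proc w m (R.erase e)).map fun l => e :: l := by
    rw [proc, dif_pos hR]
  rw [h, PMF.toOuterMeasure_bind_apply, step_sum]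
  refine Finset.sum_congr rfl fun e _ => ?_
  rw [PMF.toOuterMeasure_map_apply]

/-- the full process runs through all elements of `R` exactly once -/
theorem proc_perm (w : α → ℝ≥0) : ∀ (m : ℕ) (R : Finset α), R.card = m →
    (proc w m R).toOuterMeasure {l | ¬ (l.Nodup ∧ ∀ e, e ∈ l ↔ e ∈ R)} = 0 := by
  intro m
  induction m with
  | zero =>
    intro R hR
    rw [Finset.card_eq_zero] at hR
    subst hR
    rw [proc, PMF.toOuterMeasure_pure_apply, if_neg]
    simp
  | succ m ih =>
    intro R hR
    have hne : R.Nonempty := Finset.card_pos.1 (by omega)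
    rw [proc_succ w m R hne]
    refine Finset.sum_eq_zero fun e he => ?_
    have h1 := ih (R.erase e) (by rw [Finset.card_erase_of_mem he, hR]; rfl)
    have h2 : (proc w m (R.erase e)).toOuterMeasure
        ((fun l => e :: l) ⁻¹' {l | ¬ (l.Nodup ∧ ∀ e, e ∈ l ↔ e ∈ R)}) ≤ 0 := by
      rw [← h1]
      refine measure_mono fun l hl => ?_
      simp only [Set.mem_preimage, Set.mem_setOf_eq] at hl ⊢
      intro hc
      apply hl
      refine ⟨List.nodup_cons.2 ⟨fun h => ?_, hc.1⟩, fun a => ?_⟩
      · exact Finset.notMem_erase e R ((hc.2 e).1 h)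
      · rw [List.mem_cons, hc.2 a, Finset.mem_erase]
        by_cases hae : a = e
        · subst hae; simp [he]
        · simp [hae]
    rw [le_antisymm h2 bot_le, mul_zero]

/-- If every element of `A` is much heavier than all elements of `B` together, then the elements of `A` come first. -/
theorem proc_first (w : α → ℝ≥0) (δ : ℝ≥0) (B : Finset α) : ∀ (m : ℕ) (A : Finset α), A.card = m → Disjoint A B →
    (∀ a ∈ A, 0 < w a ∧ ∑ b ∈ B, w b ≤ δ * w a) →
    (proc w (A ∪ B).card (A ∪ B)).toOuterMeasure {l | ¬ ∀ e ∈ l.take A.card, e ∈ A} ≤ (m : ℝ≥0∞) * δ := by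
  intro m
  induction m with
  | zero =>
    intro A hA _ _
    rw [hA]
    have : {l : List α | ¬ ∀ e ∈ l.take 0, e ∈ A} = ∅ := by
      ext l; simp
    rw [this]
    simp
  | succ m ih =>
    intro A hA hAB hw
    have hne : (A ∪ B).Nonempty := by
      obtain ⟨a, ha⟩ := Finset.card_pos.1 (show 0 < A.card by omega)
      exact ⟨a, Finset.mem_union_left _ ha⟩
    obtain ⟨N, hN⟩ : ∃ N, (A ∪ B).card = N + 1 := ⟨(A ∪ B).card - 1, by
      have := Finset.card_pos.2 hne; omega⟩
    rw [hN, proc_succ w N (A ∪ B) hne, Finset.sum_union hAB]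
    obtain ⟨a0, ha0⟩ := Finset.card_pos.1 (show 0 < A.card by omega)
    have hpos : 0 < ∑ b ∈ A ∪ B, w b :=
      lt_of_lt_of_le (hw a0 ha0).1 (Finset.single_le_sum (f := w) (fun _ _ => bot_le) (Finset.mem_union_left _ ha0))
    -- the first element in `B`
    have hB : ∑ e ∈ B, step w (A ∪ B) hne e *
        (proc w N ((A ∪ B).erase e)).toOuterMeasure ((fun l => e :: l) ⁻¹' {l | ¬ ∀ e ∈ l.take A.card, e ∈ A}) ≤ δ := by
      calc _ ≤ ∑ e ∈ B, step w (A ∪ B) hne e * 1 := by
            refine Finset.sum_le_sum fun e _ => mul_le_mul_right ?_ _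
            calc _ ≤ (proc w N ((A ∪ B).erase e)).toOuterMeasure Set.univ := measure_mono (Set.subset_univ _)
              _ = 1 := by rw [PMF.toOuterMeasure_apply_eq_one_iff]; exact Set.subset_univ _
        _ = ∑ e ∈ B, ((w e / ∑ b ∈ A ∪ B, w b : ℝ≥0) : ℝ≥0∞) := by
            refine Finset.sum_congr rfl fun e he => ?_
            rw [mul_one, step_mem w _ hne hpos.ne' (Finset.mem_union_right _ he)]
        _ = (((∑ e ∈ B, w e) / ∑ b ∈ A ∪ B, w b : ℝ≥0) : ℝ≥0∞) := by
            rw [← ENNReal.coe_finset_sum, ← Finset.sum_div]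
        _ ≤ δ := by
            rw [ENNReal.coe_le_coe, div_le_iff₀ hpos]
            refine (hw a0 ha0).2.trans (mul_le_mul_right ?_ _)
            exact Finset.single_le_sum (f := w) (fun _ _ => bot_le) (Finset.mem_union_left _ ha0)
    -- the first element in `A`
    have hAe : ∀ e ∈ A, (proc w N ((A ∪ B).erase e)).toOuterMeasure
        ((fun l => e :: l) ⁻¹' {l | ¬ ∀ e ∈ l.take A.card, e ∈ A}) ≤ (m : ℝ≥0∞) * δ := by
      intro e he
      have heB : e ∉ B := Finset.disjoint_left.1 hAB he
      have h1 : (A ∪ B).erase e = A.erase e ∪ B := by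
        rw [Finset.erase_union_distrib, Finset.erase_eq_of_notMem heB]
      have h2 : (A.erase e ∪ B).card = N := by
        rw [← h1, Finset.card_erase_of_mem (Finset.mem_union_left _ he), hN]; rfl
      have h3 : (A.erase e).card = m := by rw [Finset.card_erase_of_mem he, hA]; rfl
      have h4 := ih (A.erase e) h3 (hAB.mono_left (Finset.erase_subset _ _))
        (fun a ha => hw a (Finset.mem_of_mem_erase ha))
      rw [h2] at h4
      rw [h1]
      refine (measure_mono ?_).trans h4
      intro l hl
      simp only [Set.mem_preimage, Set.mem_setOf_eq] at hl ⊢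
      intro hc
      apply hl
      intro a ha
      rw [hA, List.take_succ_cons, List.mem_cons] at ha
      rcases ha with rfl | ha
      · exact he
      · rw [h3] at hc
        exact Finset.mem_of_mem_erase (hc a ha)
    calc _ ≤ ∑ e ∈ A, step w (A ∪ B) hne e * ((m : ℝ≥0∞) * δ) + δ :=
          add_le_add (Finset.sum_le_sum fun e he => mul_le_mul_right (hAe e he) _) hB
      _ = (∑ e ∈ A, step w (A ∪ B) hne e) * ((m : ℝ≥0∞) * δ) + δ := by rw [Finset.sum_mul]
      _ ≤ 1 * ((m : ℝ≥0∞) * δ) + δ := by
          refine add_le_add (mul_le_mul_left ?_ _) le_rfl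
          rw [← step_total w (A ∪ B) hne]
          exact Finset.sum_le_sum_of_subset Finset.subset_union_left
      _ = ((m + 1 : ℕ) : ℝ≥0∞) * δ := by push_cast; ring

end Pool.Agent.HitW
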