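import Pool.Agent.Lib_MP_f2f003_ins.Grf

/-!
# MP_f2f003_pr: types with rapidly decreasing masses

Own library (helper59).
-/

set_option autoImplicit false

namespace Pool.Agent.HitW

open MeasureTheory Filter
open scoped ENNReal NNReal Topology

variable {Ω : Type*} [MeasurableSpace Ω]

/-- a sequence of sets of rapidly decreasing positive measure -/
theorem exists_seq (μ : Measure Ω) [IsProbabilityMeasure μ]
    (h : ∀ ε : ℝ≥0∞, 0 < ε → ∃ A, MeasurableSet A ∧ 0 < μ A ∧ μ A < ε) :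
    ∃ A : ℕ → Set Ω, (∀ j, MeasurableSet (A j)) ∧ (∀ j, 0 < μ.real (A j)) ∧
      ∀ j, μ.real (A (j + 1)) ≤ μ.real (A j) / (6 * ((j : ℝ) + 1) ^ 3) := by
  classical
  let S := {A : Set Ω // MeasurableSet A ∧ 0 < μ.real A}
  have hex : ∀ (j : ℕ) (A : S), ∃ B : S, μ.real B.1 ≤ μ.real A.1 / (6 * ((j : ℝ) + 1) ^ 3) := by
    intro j A
    have h1 : 0 < μ.real A.1 / (6 * ((j : ℝ) + 1) ^ 3) := div_pos A.2.2 (by positivity)
    obtain ⟨B, hB, hB0, hB1⟩ := h (ENNReal.ofReal (μ.real A.1 / (6 * ((j : ℝ) + 1) ^ 3))) (by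
      rwa [ENNReal.ofReal_pos])
    refine ⟨⟨B, hB, ENNReal.toReal_pos hB0.ne' (measure_ne_top _ _)⟩, ?_⟩
    exact ENNReal.toReal_le_of_le_ofReal h1.le hB1.le
  choose nxt hnxt using hex
  obtain ⟨B0, hB0, hB0', -⟩ := h 2 (by norm_num)
  let seq : ℕ → S := fun j => Nat.rec (⟨B0, hB0, ENNReal.toReal_pos hB0'.ne' (measure_ne_top _ _)⟩ : S)
    (fun j A => nxt j A) j
  refine ⟨fun j => (seq j).1, fun j => (seq j).2.1, fun j => (seq j).2.2, fun j => ?_⟩
  exact hnxt j (seq j)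

theorem exists_types (μ : Measure Ω) [IsProbabilityMeasure μ]
    (h : ∀ ε : ℝ≥0∞, 0 < ε → ∃ A, MeasurableSet A ∧ 0 < μ A ∧ μ A < ε) :
    ∃ (φ : Ω → ℕ) (n : ℕ → ℕ), Measurable φ ∧
      (∀ k : ℕ, (n k : ℝ) * μ.real {ω | k + 1 < φ ω} ≤ 1 / ((k : ℝ) + 1)) ∧
      (∀ k : ℕ, ((k : ℝ) + 1) ^ 2 ≤ n k * μ.real {ω | φ ω = k + 1}) ∧
      (∀ k : ℕ, μ.real {ω | φ ω = k + 1} ≤ 1 / 2) := by
  classical
  obtain ⟨A, hAm, hA0, hA1⟩ := exists_seq μ h
  have hle1 : ∀ j, μ.real (A j) ≤ 1 := fun j => measureReal_le_one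
  -- geometric decrease
  have hhalf : ∀ j, μ.real (A (j + 1)) ≤ μ.real (A j) / 6 := by
    intro j
    refine (hA1 j).trans (div_le_div_of_nonneg_left (hA0 j).le (by norm_num) ?_)
    have : (1 : ℝ) ≤ ((j : ℝ) + 1) ^ 3 := one_le_pow₀ (by linarith [(Nat.cast_nonneg j : (0 : ℝ) ≤ j)])
    linarith
  have hgeo : ∀ k i, μ.real (A (k + i)) ≤ μ.real (A k) * (1 / 2) ^ i := by
    intro k i
    induction i with
    | zero => simp
    | succ i ih =>
      have := hhalf (k + i)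
      rw [← Nat.add_assoc, pow_succ]
      have h2 := hA0 (k + i)
      linarith
  -- tails
  set T : ℕ → Set Ω := fun k => ⋃ i, A (k + 1 + i) with hT
  have hTm : ∀ k, MeasurableSet (T k) := fun k => MeasurableSet.iUnion fun i => hAm _
  have htail : ∀ k, μ.real (T k) ≤ 2 * μ.real (A (k + 1)) := by
    intro k
    have h1 : μ (T k) ≤ ∑' i, μ (A (k + 1 + i)) := measure_iUnion_le _
    have h2 : ∑' i, μ (A (k + 1 + i)) ≤ ENNReal.ofReal (2 * μ.real (A (k + 1))) := by
      calc ∑' i, μ (A (k + 1 + i)) ≤ ∑' i, ENNReal.ofReal (μ.real (A (k + 1)) * (1 / 2) ^ i) := by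
            refine ENNReal.tsum_le_tsum fun i => ?_
            rw [← ofReal_measureReal (measure_ne_top _ _)]
            exact ENNReal.ofReal_le_ofReal (hgeo (k + 1) i)
        _ = ENNReal.ofReal (∑' i, μ.real (A (k + 1)) * (1 / 2) ^ i) :=
            (ENNReal.ofReal_tsum_of_nonneg (fun i => mul_nonneg (hA0 _).le (by positivity))
              (summable_geometric_two.mul_left _)).symm
        _ = ENNReal.ofReal (2 * μ.real (A (k + 1))) := by
            rw [tsum_mul_left, tsum_geometric_two, mul_comm]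
    exact ENNReal.toReal_le_of_le_ofReal (by have := hA0 (k + 1); positivity) (h1.trans h2)
  -- the type
  set φ : Ω → ℕ := fun ω => sSup {j | ω ∈ A j} with hφ
  have hφ1 : ∀ k ω, k < φ ω → ω ∈ T k := by
    intro k ω hk
    have hne : {j | ω ∈ A j}.Nonempty := by
      by_contra hcon
      rw [Set.not_nonempty_iff_eq_empty] at hcon
      simp only [hφ, hcon] at hk
      simp at hk
    obtain ⟨j, hj, hkj⟩ := exists_lt_of_lt_csSup hne hk
    rw [hT, Set.mem_iUnion]
    exact ⟨j - (k + 1), by rw [Nat.add_sub_cancel' hkj]; exact hj⟩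
  have hφ2 : ∀ k ω, ω ∈ A k → ω ∉ T k → φ ω = k := by
    intro k ω h1 h2
    refine IsGreatest.csSup_eq ⟨h1, fun j hj => ?_⟩
    by_contra hcon
    push Not at hcon
    apply h2
    rw [hT, Set.mem_iUnion]
    exact ⟨j - (k + 1), by rw [Nat.add_sub_cancel' hcon]; exact hj⟩
  have hφ3 : ∀ k ω, φ ω = k + 1 → ω ∈ A (k + 1) ∧ ω ∉ T (k + 1) := by
    intro k ω hk
    have hne : {j | ω ∈ A j}.Nonempty := by
      by_contra hcon
      rw [Set.not_nonempty_iff_eq_empty] at hcon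
      simp only [hφ, hcon] at hk
      simp at hk
    have hbd : BddAbove {j | ω ∈ A j} := by
      by_contra hcon
      have : φ ω = 0 := Nat.sSup_of_not_bddAbove hcon
      omega
    refine ⟨?_, fun hT' => ?_⟩
    · have := Nat.sSup_mem hne hbd
      have h3 : sSup {j | ω ∈ A j} = k + 1 := hk
      rw [h3] at this
      exact this
    · rw [hT, Set.mem_iUnion] at hT'
      obtain ⟨i, hi⟩ := hT'
      have h3 : k + 1 + 1 + i ≤ φ ω := le_csSup hbd hi
      omega
  have hset : ∀ k, {ω | φ ω = k + 1} = A (k + 1) \ T (k + 1) := by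
    intro k
    ext ω
    exact ⟨fun h => hφ3 k ω h, fun h => hφ2 (k + 1) ω h.1 h.2⟩
  have hmeas : Measurable φ := by
    refine measurable_to_countable' fun k => ?_
    have hs : ∀ k, MeasurableSet (φ ⁻¹' {k + 1}) := by
      intro k
      have : φ ⁻¹' {k + 1} = A (k + 1) \ T (k + 1) := hset k
      rw [this]
      exact (hAm _).diff (hTm _)
    rcases k with _ | k
    · have : φ ⁻¹' {0} = (⋃ k, φ ⁻¹' {k + 1})ᶜ := by
        ext ω
        simp only [Set.mem_preimage, Set.mem_singleton_iff, Set.mem_compl_iff, Set.mem_iUnion, not_exists]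
        constructor
        · intro h k; omega
        · intro h
          by_contra hcon
          exact h (φ ω - 1) (by omega)
      rw [this]
      exact (MeasurableSet.iUnion hs).compl
    · exact hs k
  refine ⟨φ, fun k => ⌈2 * ((k : ℝ) + 2) ^ 2 / μ.real (A (k + 1))⌉₊, hmeas, fun k => ?_, fun k => ?_, fun k => ?_⟩
  · set r := μ.real (A (k + 1)) with hr
    have hr0 : 0 < r := hA0 _
    have h1 : (⌈2 * ((k : ℝ) + 2) ^ 2 / r⌉₊ : ℝ) ≤ 3 * ((k : ℝ) + 2) ^ 2 / r := by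
      have h2 := (Nat.ceil_lt_add_one (show 0 ≤ 2 * ((k : ℝ) + 2) ^ 2 / r by positivity)).le
      refine h2.trans ?_
      rw [div_add_one hr0.ne']
      refine div_le_div_of_nonneg_right ?_ hr0.le
      have h3 := hle1 (k + 1)
      have h4 : (1 : ℝ) ≤ ((k : ℝ) + 2) ^ 2 := one_le_pow₀ (by linarith [(Nat.cast_nonneg k : (0 : ℝ) ≤ k)])
      rw [← hr] at h3
      linarith
    have h2 : μ.real {ω | k + 1 < φ ω} ≤ r / (3 * ((k : ℝ) + 2) ^ 3) := by
      have h3 : μ.real {ω | k + 1 < φ ω} ≤ μ.real (T (k + 1)) := measureReal_mono fun ω hω => hφ1 _ _ hω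
      have h4 := htail (k + 1)
      have h5 := hA1 (k + 1)
      push_cast at h5
      rw [show (k : ℝ) + 1 + 1 = k + 2 by ring] at h5
      have h6 : r / (3 * ((k : ℝ) + 2) ^ 3) = 2 * (r / (6 * ((k : ℝ) + 2) ^ 3)) := by
        field_simp
        norm_num
      rw [h6]
      linarith
    calc (⌈2 * ((k : ℝ) + 2) ^ 2 / r⌉₊ : ℝ) * μ.real {ω | k + 1 < φ ω}
        ≤ (3 * ((k : ℝ) + 2) ^ 2 / r) * (r / (3 * ((k : ℝ) + 2) ^ 3)) :=
          mul_le_mul h1 h2 measureReal_nonneg (by positivity)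
      _ = 1 / ((k : ℝ) + 2) := by field_simp
      _ ≤ 1 / ((k : ℝ) + 1) := by
          refine one_div_le_one_div_of_le (by positivity) (by linarith)
  · set r := μ.real (A (k + 1)) with hr
    have hr0 : 0 < r := hA0 _
    have h1 : r / 2 ≤ μ.real {ω | φ ω = k + 1} := by
      rw [hset k]
      have h2 : μ.real (A (k + 1)) ≤ μ.real (A (k + 1) \ T (k + 1)) + μ.real (T (k + 1)) := by
        have hsub : A (k + 1) ⊆ (A (k + 1) \ T (k + 1)) ∪ T (k + 1) := by
          intro ω hω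
          by_cases h : ω ∈ T (k + 1)
          · exact Or.inr h
          · exact Or.inl ⟨hω, h⟩
        exact (measureReal_mono hsub).trans (measureReal_union_le _ _)
      have h3 := htail (k + 1)
      have h4 := hhalf (k + 1)
      rw [← hr] at h2 h4
      linarith
    have h2 : 2 * ((k : ℝ) + 2) ^ 2 / r ≤ (⌈2 * ((k : ℝ) + 2) ^ 2 / r⌉₊ : ℝ) := Nat.le_ceil _
    calc ((k : ℝ) + 1) ^ 2 ≤ ((k : ℝ) + 2) ^ 2 := by
          refine pow_le_pow_left₀ (by positivity) (by linarith) 2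
      _ = (2 * ((k : ℝ) + 2) ^ 2 / r) * (r / 2) := by field_simp
      _ ≤ (⌈2 * ((k : ℝ) + 2) ^ 2 / r⌉₊ : ℝ) * μ.real {ω | φ ω = k + 1} :=
          mul_le_mul h2 h1 (by positivity) (by positivity)
  · have h1 : μ.real {ω | φ ω = k + 1} ≤ μ.real (A (k + 1)) := measureReal_mono fun ω hω => (hφ3 k ω hω).1
    have h2 := hhalf k
    have h3 := hle1 k
    linarith

end Pool.Agent.HitW
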